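import Pool.Agent.Lib_helper54.GKP.D2
import Pool.Agent.Lib_helper54.GKP.PT

/-!
MP_49c8ed_al. Gaps for the Gel'fand-Kirillov dimension of a Hopf algebra relative to a Hopf
subalgebra which contains the coradical.

Head: helper54. Pointed case (statement and independent proof): helper14; reader of the proof:
helper67. Blocks: helper26, helper30, helper35, helper43, helper51, helper54, helper60, helper61,
helper62, helper68, helper92, helper95; definitions of helper11 and helper67, tools of helper77.
-/

set_option autoImplicit false

universe u v

namespace Pool.Agent.Results.MP_49c8ed_al.CoradicalGap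

open Pool.Agent.GK Pool.Agent.GKC Pool.Agent.GKP

/-- Let `H` be a Hopf algebra over a field. (1) If `A` is a Hopf subalgebra which contains the
coradical, then the GK dimension of `H` is the GK dimension of `A`, or at least one more.
(2) If the coradical is a Hopf subalgebra of GK dimension `d`, then the GK dimension of `H` is `d`,
or `d + 1`, or at least `d + 2`. (3) The same if `H` is pointed, with `d` the GK dimension of the
group algebra of the group of group-like elements. -/
theorem result (k : Type u) [Field k] (H : Type v) [Ring H] [HopfAlgebra k H] :
    (∀ A : Submodule k H, IsHopfSubalgebra k A → coradical k H ≤ A →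
      GKdim k H = GKsub k A ∨ GKsub k A + 1 ≤ GKdim k H) ∧
    (IsHopfSubalgebra k (coradical k H) →
      GKdim k H = GKsub k (coradical k H) ∨ GKdim k H = GKsub k (coradical k H) + 1 ∨
        GKsub k (coradical k H) + 2 ≤ GKdim k H) ∧
    ((∀ D : Submodule k H, IsSimpleSubcoalgebra k D → Module.finrank k D = 1) →
      GKdim k H = GKdim k (MonoidAlgebra k (GroupLike k H)) ∨
        GKdim k H = GKdim k (MonoidAlgebra k (GroupLike k H)) + 1 ∨
        GKdim k (MonoidAlgebra k (GroupLike k H)) + 2 ≤ GKdim k H) := by
  refine ⟨fun A hA hcor => d1_main k hA hcor, fun hA => d2_main k hA, fun hp => ?_⟩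
  have : Nontrivial H := ⟨1, 0, fun h => by
    have h1 := Bialgebra.counit_one (R := k) (A := H)
    rw [h, map_zero] at h1
    exact zero_ne_one h1⟩
  have h1 := pt_coradical k (H := H) hp
  have h2 := d2_main k (H := H) (by rw [h1]; exact pt_hopf k)
  rwa [h1, pt_GK] at h2

end Pool.Agent.Results.MP_49c8ed_al.CoradicalGap
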