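import Pool.Agent.Lib_helper2.GKF.PGR

/-!
The Gelfand-Kirillov dimension of a bialgebra (in particular of a Hopf algebra), over any field, whose
coradical has a locally nilpotent augmentation part is a natural number or infinite.

`Pool.Agent.GK.coradical k H` is the sum of all simple subcoalgebras; `Pool.Agent.GK.GKdim k H` is the
supremum over the finite-dimensional subspaces `V` containing `1` of `limsup log (dim V^n) / log n`,
word for word as in the frozen statement.

Outline of the proof (Lib_helper2/GKF).  (1) For a finite-dimensional subcoalgebra `C` containing `1`
there is a chain `C_0 <= C_1 <= ... <= C_r = C` of subcoalgebras, `C_0` the intersection of `C` with the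
coradical, with `Delta(C_i)` in `C_i (x) C_0 + C_0 (x) C_i + C_(i-1) (x) C_(i-1)`: functionals which
vanish on the coradical act nilpotently on finite-dimensional comodules (`CP.key`, `exists_chain`).
(2) Let `C_0^+` have `(C_0^+)^(e+1) = 0`.  Letters spanning `C_0^+` get the weight `-1`, those spanning
`C_i^+` the weight `(e+1) 3^i`; the filtration by weight is a bialgebra filtration, it is
finite-dimensional, and the letters are primitive modulo lower weight.  (3) The quotient of the free
algebra by the elements all of whose homogeneous components drop in weight is a bialgebra `B` generated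
by primitive elements (`exists_quot`), its weight filtration has the same dimensions as that of `H`
(`Es_finrank_eq`), and `dim D^n` for `H` and for `B` bound each other up to a linear change of `n`.
(4) `B` is treated by the blocks of `ConnectedHopf` (`growth_prim`).
-/

set_option autoImplicit false

universe u v

namespace Pool.Agent.Results.MP_49c8ed_al.LocalCoradical

/-- Every finite-dimensional subspace `V` of the coradical on which the counit vanishes is nilpotent:
all products of `n` elements of `V` are zero, for some `n` depending on `V`. -/
def CoradicalLocallyNilpotent (k : Type u) [Field k] (H : Type v) [Ring H] [Bialgebra k H] : Prop :=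
  ∀ V : Submodule k H, V.FG → V ≤ Pool.Agent.GK.coradical k H →
    (∀ x ∈ V, Coalgebra.counit (R := k) x = 0) → ∃ n : ℕ, V ^ n = ⊥

/-- The Gelfand-Kirillov dimension is a natural number or infinite if the augmentation part of the
coradical is locally nilpotent. -/
theorem result (k : Type u) [Field k] (H : Type v) [Ring H] [Bialgebra k H]
    (h : CoradicalLocallyNilpotent k H) :
    Pool.Agent.GK.GKdim k H = ⊤ ∨ ∃ m : ℕ, Pool.Agent.GK.GKdim k H = (m : ENNReal) :=
  Pool.Agent.GKF.local_main k h

/-- Example (not part of `result`): connected bialgebras. -/
theorem connected_example (k : Type u) [Field k] (H : Type v) [Ring H] [Bialgebra k H]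
    (hc : Pool.Agent.GK.IsConnectedBialgebra k H) : CoradicalLocallyNilpotent k H := by
  intro V _ hV h0
  refine ⟨1, ?_⟩
  rw [pow_one, eq_bot_iff]
  intro x hx
  have h1 := hV hx
  rw [hc] at h1
  obtain ⟨a, rfl⟩ := Submodule.mem_span_singleton.1 h1
  have h2 := h0 _ hx
  rw [map_smul, Bialgebra.counit_one, smul_eq_mul, mul_one] at h2
  rw [h2, zero_smul]
  exact Submodule.zero_mem _

/-- Example (not part of `result`): `k` has prime characteristic `p`, `H` is pointed (its coradical is
spanned by group-like elements) and every finite set of group-like elements lies in a finite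
`p`-subgroup of the units of `H`. -/
theorem pointed_example (k : Type u) [Field k] (H : Type v) [Ring H] [Bialgebra k H] (p : ℕ)
    [Fact p.Prime] [CharP k p]
    (hpt : Pool.Agent.GK.coradical k H ≤ Submodule.span k {g : H | IsGroupLikeElem k g})
    (hG : ∀ S : Finset H, (∀ g ∈ S, IsGroupLikeElem k g) →
      ∃ P : Subgroup Hˣ, Finite P ∧ IsPGroup p P ∧ ∀ g ∈ S, ∃ u ∈ P, (u : H) = g) :
    CoradicalLocallyNilpotent k H :=
  Pool.Agent.GKF.pgroup_nil k p hpt hG

end Pool.Agent.Results.MP_49c8ed_al.LocalCoradical
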