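import Pool.Agent.Lib_helper2.GKX.X9

/-!
The Gelfand-Kirillov dimension of pointed Hopf algebras whose infinitesimal braiding is unipotent, over
any field, for an arbitrary group of group-likes.

`Pool.Agent.GKX.SkewPrim k g x` says that `Δ x = x ⊗ 1 + g ⊗ x`, `Pool.Agent.GKX.Linking k g` that there
is such an `x` which is not a multiple of `1 - g`; `Pool.Agent.GK.GKdim k H` is the supremum over the
finite-dimensional subspaces `V` containing `1` of `limsup log (dim V^n) / log n`, word for word as in
the frozen statement.

Outline of the proof (Lib_helper2/GKX, from Lib_helper2/GKW).
(1) The dual of a finite-dimensional pointed subcoalgebra `D` has complete orthogonal idempotents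
`e_g`, `g` group-like in `D` (`exists_Idem`).  With the components `x ↦ e_g(x₁) x₂ e_h(x₃)` one gets the
theorem of Taft and Wilson (`Idem.taft_wilson`) and: if there are no nontrivial skew-primitives between
the classes of an equivalence relation on the group-likes, then there are no components between them
(`Idem.block`).
(2) Let `N` be the subgroup generated by the linking group-likes; it is normal.  Let `U` be the largest
subcoalgebra whose group-likes lie in `N`.  It is a sub-bialgebra, stable under the conjugation by all
group-likes, its coradical is `k[N]`, and `H = U k[G]` (`UN_bialg`, `UN_conj`, `UN_inf`, `UN_span`).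
(3) In characteristic zero linking group-likes which act locally unipotently commute
(`comm_of_uni`).  A linking group-like which acts locally unipotently on the skew-primitives acts so on
`U`, by induction on the coradical filtration (`UN_uni`); hence the commutators with all elements of
`k[N]` are locally nilpotent on `U` (`uni_closure`, `hnil_kS`).
(4) So the theorem of `UnipotentCoradical` applies to `U` and `Γ = G` (`pointed_main`).
-/

set_option autoImplicit false

universe u v

namespace Pool.Agent.Results.MP_49c8ed_al.PointedUnipotent

open Pool.Agent.GK Pool.Agent.GKX

/-- Let `H` be a pointed Hopf algebra over a field `k` and `G` the group of its group-likes. Call `g` in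
`G` linking if there is an `x` in `H` with `Δ x = x ⊗ 1 + g ⊗ x` which is not a multiple of `1 - g`.
Suppose that for all linking `g`, `h` the conjugation by `g` is locally unipotent on the `x` with
`Δ x = x ⊗ 1 + h ⊗ x`, and, if the characteristic of `k` is not `0`, that linking `g`, `h` commute. Then
`GKdim H = ∞` or `GKdim H = GKdim k[G] + m` with a natural number `m`; if `G` is commutative then
`GKdim k[G]` is a natural number in the second case. -/
theorem result (k : Type u) [Field k] (H : Type v) [Ring H] [HopfAlgebra k H]
    (hp : ∀ D : Submodule k H, IsSimpleSubcoalgebra k D → Module.finrank k D = 1)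
    (hcomm : CharZero k ∨ ∀ g h : GroupLike k H, Linking k g → Linking k h → g * h = h * g)
    (huni : ∀ g h : GroupLike k H, Linking k g → Linking k h → ∀ x : H, SkewPrim k h x →
      ∃ n : ℕ, (fun y => g.val * y * (g⁻¹).val - y)^[n] x = 0) :
    GKdim k H = ⊤ ∨ ∃ m : ℕ, GKdim k H = GKdim k (MonoidAlgebra k (GroupLike k H)) + m ∧
      ((∀ a b : GroupLike k H, a * b = b * a) →
        ∃ e : ℕ, GKdim k (MonoidAlgebra k (GroupLike k H)) = e) :=
  pointed_main k hp hcomm huni

end Pool.Agent.Results.MP_49c8ed_al.PointedUnipotent
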