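import Pool.Agent.Lib_helper2.GKW.W12

/-!
The Gelfand-Kirillov dimension of Hopf algebras `H = U k[Γ]`, over any field, where `U` is a
sub-bialgebra whose coradical `A` is a commutative Hopf subalgebra acting locally unipotently on `U`
(the commutation with every element of `A` is locally nilpotent on `U`) and `Γ` is a group of
group-likes which normalizes `U` and acts on it (also on `A`) in an arbitrary way.

`Pool.Agent.GK.coradical k H` is the sum of all simple subcoalgebras, so `U ⊓ coradical k H` is the
coradical of the subcoalgebra `U`; `Pool.Agent.GK.GKdim k H` is the supremum over the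
finite-dimensional subspaces `V` containing `1` of `limsup log (dim V^n) / log n`, word for word as in
the frozen statement, `Pool.Agent.GKC.GKsub k A` is the same supremum over the `V` inside `A`,
`Pool.Agent.GKP.IsHopfSubalgebra k A` says that `A` contains `1` and is closed under multiplication,
comultiplication and the antipode, `Pool.Agent.GKW.IsSubbialgebra k U` the same without the antipode,
and `Pool.Agent.GKW.ConjStable k S L` that `s y s⁻¹ ∈ L` for all `s ∈ S`, `y ∈ L`.

Outline of the proof (Lib_helper2/GKV, GKW; the case `U = H` is in GKU and GKF).
(1) The coradical of `U k[Γ]` is `A k[Γ]` (`cor_eq`), a Hopf subalgebra (`cor_hopf`).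
(2) Let `E` be a finite-dimensional subcoalgebra of `A` with `1`, stable under the antipode, `O_j` the
sum of its conjugates by the words of length `j` in a finite symmetric set `S ⊆ Γ`.  If `O_(j+1)` is
never contained in the algebra `K_j` generated by `O_j`, there are simple subcoalgebras
`F_j ≤ O_(j+1)` outside of `K_j`, of dimension at most `e = dim E`; `P F_j` meets `K_j` in `0` for
every subcoalgebra `P` of `K_j` (`simple_mul_inf`) and `e dim (P F_j) ≥ dim P`, so the dimensions
multiply by `1 + 1/e` while the length grows by `2j + 3`: the growth is at least `exp (c sqrt n)`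
(`orbit_fg`).  Otherwise `L = K_j` is a finitely generated Hopf subalgebra of `A` stable under `S`
(`stable_hopf`).
(3) Every finite-dimensional subcoalgebra of `U` with coradical in `L` is contained in a member
`M_r = X_r L` of a system: a chain `L = M_0 ≤ M_1 ≤ ...` of finitely generated `L`-modules, stable
under `S`, with `Delta M_(i+1)` in `M_(i+1) (x) L + L (x) M_(i+1) + M_i (x) M_i`, provided that the
orbits of the new letters are finite-dimensional over `L`; if one of them is not, infinitely many
independent conjugates which are primitive modulo lower terms give growth at least `exp (c sqrt n)`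
(`step2`, `sys_exists`).
(4) The weight filtration of a system (letters of level `i` have the weight `(n+1) 3^i` minus the
number of commutators with `L`) is stable under `S`; modulo the augmentation ideal of `L` it
degenerates to a bialgebra generated by primitives.  So `dim (M_r T)^n` for finite-dimensional `T` in
the coradical is, up to rescaling `n`, the product of a function which grows like `n^m` or at least
like `exp (c sqrt n)` and of `dim (T')^n` (`count_low`, `count_up`, `one_sys`).
(5) The maximum over all systems is `m` (`main`, `main3`).
-/

set_option autoImplicit false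

universe u v

namespace Pool.Agent.Results.MP_49c8ed_al.UnipotentCoradical

open Pool.Agent.GK Pool.Agent.GKC Pool.Agent.GKP Pool.Agent.GKW

/-- Let `U` be a sub-bialgebra of the Hopf algebra `H` whose coradical `A` is a commutative Hopf
subalgebra such that for all `a` in `A` and `x` in `U` the iterated commutators `[a, [a, ... [a, x]]]`
vanish eventually. Let `Γ` be a group of group-likes with `g U g⁻¹ ⊆ U` and `H = U k[Γ]`. Then the
coradical of `H` is `A k[Γ]`, and the Gelfand-Kirillov dimension of `H` is infinite, or: every
finite-dimensional subspace of `U` lies in a subspace `X L` of `U` stable under the conjugation by any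
given finite subset of `Γ`, with `X` finite-dimensional and `L` a finitely generated Hopf subalgebra of
`A`, and there are natural numbers `d`, `m` with `GKdim A = d`, `GKdim U = d + m` and
`GKdim H = GKdim (A k[Γ]) + m`, where `GKdim (A k[Γ])` is a natural number if `A k[Γ]` is
commutative. -/
theorem result (k : Type u) [Field k] (H : Type v) [Ring H] [HopfAlgebra k H]
    (U : Submodule k H) (hU : IsSubbialgebra k U)
    (hUA : IsHopfSubalgebra k (U ⊓ coradical k H))
    (hcomm : ∀ a ∈ U ⊓ coradical k H, ∀ b ∈ U ⊓ coradical k H, a * b = b * a)
    (hnil : ∀ a ∈ U ⊓ coradical k H, ∀ x ∈ U, ∃ n : ℕ, (fun y => a * y - y * a)^[n] x = 0)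
    (Γ : Subgroup (GroupLike k H)) (hΓU : ConjStable k (Γ : Set (GroupLike k H)) U)
    (hspan : U * Submodule.span k (GroupLike.val '' (Γ : Set (GroupLike k H))) = ⊤) :
    coradical k H = (U ⊓ coradical k H) * Submodule.span k (GroupLike.val '' (Γ : Set (GroupLike k H))) ∧
    (GKdim k H = ⊤ ∨
      ((∀ S : Finset (GroupLike k H), (S : Set (GroupLike k H)) ⊆ Γ → ∀ V : Submodule k H, V.FG → V ≤ U →
        ∃ (X L : Submodule k H), X.FG ∧ (∃ s : Finset H, Subalgebra.toSubmodule (Algebra.adjoin k (s : Set H)) = L) ∧
          IsHopfSubalgebra k L ∧ L ≤ U ⊓ coradical k H ∧ V ≤ X * L ∧ X * L ≤ U ∧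
          ConjStable k (S : Set (GroupLike k H)) (X * L)) ∧
      ∃ d m : ℕ, GKsub k (U ⊓ coradical k H) = d ∧ GKsub k U = d + m ∧
        GKdim k H = GKsub k (coradical k H) + m ∧
        ((∀ a ∈ coradical k H, ∀ b ∈ coradical k H, a * b = b * a) → ∃ e : ℕ, GKsub k (coradical k H) = e))) :=
  main3 k hU hUA hcomm hnil hΓU hspan

end Pool.Agent.Results.MP_49c8ed_al.UnipotentCoradical
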